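import Pool.Agent.G02.StmtsS

/-!
# Row FT1 of squad G02: type 1, conclusion
-/

set_option autoImplicit false

namespace Pool.Agent.G02.H96

open Polynomial Pool.Agent.NJ Pool.Agent.GT.F Pool.Agent.G02

theorem fin_aux (gen' : NJ.GENStmt) (rk0 : NJ.RK0Stmt) (E : WeierstrassCurve ℚ[X])
    (hΔ : E.Δ ≠ 0) (h : {t : ℚ | (fib E t).Δ ≠ 0 ∧ Two (fib E t)}.Infinite) :
    (rk (gen E) = 0 ∨ rk (gen E) = 1) ∧ (nonJumping E).Infinite := by
  have hg : rk (gen E) = 0 := rk0 _ _ (gen' E hΔ h)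
  refine ⟨Or.inl hg, h.mono ?_⟩
  rintro t ⟨h1, h2⟩
  exact ⟨h1, by rw [hg]; exact rk0 _ _ h2⟩

theorem ty1_change {a b x y : ℚ[X]} {k : ℚ} {m : RatFunc ℚ} {i j : ℕ} (h : Ty1 a b x y k m i j)
    (k' c : ℚ) (hk : k = k' * c ^ 2) : Ty1 a b x y k' (RatFunc.C c * m) i j := by
  have hc : c ≠ 0 := by
    rintro rfl
    exact h.k0 (by rw [hk]; ring)
  have hk' : k' ≠ 0 := by
    rintro rfl
    exact h.k0 (by rw [hk]; ring)
  have e : RatFunc.C k * m ^ 2 = RatFunc.C k' * (RatFunc.C c * m) ^ 2 := by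
    rw [hk, map_mul, map_pow]; ring
  refine ⟨h.lin, hk', mul_ne_zero ?_ h.m0, ?_, ?_⟩
  · exact (map_ne_zero_iff _ RatFunc.C_injective).2 hc
  · rw [h.ha, e]
  · rw [h.hb, e]

theorem ft1 (pm0 : Pm0Stmt) (fv1 : Fv1Stmt) (fw1 : Fw1Stmt) (arv : ArvStmt) (aru : AruStmt)
    (arw : ArwStmt) (ars : ArsStmt) (gen' : NJ.GENStmt) (rk0 : NJ.RK0Stmt) : Ft1Stmt := by
  intro E e a b x y k m i j hΔ hR hT hi hj
  have hi' : i = 0 ∨ i = 1 := by omega
  have hj' : j = 0 ∨ j = 1 := by omega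
  have key : {τ : ℚ | Gd (k * τ ^ i * (τ - 4) ^ j) τ}.Infinite →
      (rk (gen E) = 0 ∨ rk (gen E) = 1) ∧ (nonJumping E).Infinite := fun h =>
    fin_aux gen' rk0 E hΔ (pm0 E e a b x y k m i j hR hT h)
  rcases hi' with rfl | rfl <;> rcases hj' with rfl | rfl
  · by_cases hs : IsSquare (-k)
    · obtain ⟨c, hc⟩ := hs
      have hk : k = (-1) * c ^ 2 := by linear_combination (-1) * hc
      obtain ⟨h1, h2⟩ := fv1 E e a b x y _ hΔ hR (ty1_change hT (-1) c hk)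
      exact ⟨Or.inr h1, h2⟩
    · refine key ?_
      simpa using arv k hT.k0 hs
  · by_cases hs : IsSquare (2 * k)
    · obtain ⟨c, hc⟩ := hs
      have hk : k = 2 * (c / 2) ^ 2 := by linear_combination (1 / 2) * hc
      obtain ⟨h1, h2⟩ := fw1 E e a b x y _ hΔ hR (ty1_change hT 2 (c / 2) hk)
      exact ⟨Or.inr h1, h2⟩
    · refine key ?_
      simpa using arw k hT.k0 hs
  · refine key ?_
    simpa using aru k hT.k0
  · refine key ?_
    simpa using ars k hT.k0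

end Pool.Agent.G02.H96
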